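import Pool.Agent.X253.FixedPile

/-!
# Projective piles over free profinite completions whose stabilizers are not in free factors

For every group `F` the profinite completion of `F`, acting on the disjoint union of a fixed point
and a regular orbit, is a projective pile with more than one point, and every `g` in `F` is in the
stabilizer of the fixed point.  For `F` free on two generators and `g` the commutator of the generators
no free factor of `F` other than `F` contains `g`.
-/

set_option autoImplicit false

namespace Pool.Agent.Results.MP_f46d86_al.FixedPointPiles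

open Pool.Agent.X253.Piles

/-- `A` is a free factor of `F`: `F = A * B` for some subgroup `B`. -/
def IsFreeFactor {F : Type} [Group F] (A : Subgroup F) : Prop :=
  ∃ B : Subgroup F, Function.Bijective (Monoid.Coprod.lift A.subtype B.subtype)

/-- the profinite completion of `F` -/
noncomputable abbrev Compl (F : Type) [Group F] : ProfiniteGrp.{0} :=
  ProfiniteGrp.ProfiniteCompletion.completion (GrpCat.of F)

/-- the natural map from `F` to its profinite completion -/
noncomputable def toCompl (F : Type) [Group F] (x : F) : Compl F :=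
  ProfiniteGrp.ProfiniteCompletion.etaFn (GrpCat.of F) x

/-- There is a projective pile with more than one point over the profinite completion of `F`, and a
point of it whose stabilizer contains `g`. -/
def InStabilizer (F : Type) [Group F] (g : F) : Prop :=
  ∃ (P : Pile.{0}) (e : Compl F ≃ₜ* P.G), P.Projective ∧ Nontrivial P.T ∧
    ∃ t : P.T, e (toCompl F g) ∈ P.stab t

theorem inStabilizer (F : Type) [Group F] (g : F) : InStabilizer F g := by
  refine ⟨Pool.Agent.X253.FixedPile.pile (Compl F), ?_, ?_, ?_, ?_⟩
  · exact ContinuousMulEquiv.refl (Compl F)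
  · exact Pool.Agent.X253.FixedPile.projective (Compl F)
  · exact Pool.Agent.X253.FixedPile.nontrivial (Compl F)
  · exact ⟨Sum.inl PUnit.unit, Pool.Agent.X253.FixedPile.stab_fixed (Compl F) _⟩

/-- the homomorphisms from a free group to `Z/2` -/
lemma card_homs {G : Type} [Group G] {ι : Type} (e : G ≃* FreeGroup ι) :
    Nat.card (G →* Multiplicative (ZMod 2)) = Nat.card (ι → Multiplicative (ZMod 2)) := by
  refine Nat.card_congr ?_
  exact (MulEquiv.monoidHomCongrLeftEquiv e).trans FreeGroup.lift.symm

/-- a proper free factor of a free group of rank two is commutative -/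
lemma comm_of_factor {A : Subgroup (FreeGroup (Fin 2))} (hA : IsFreeFactor A) (hne : A ≠ ⊤) :
    ∀ x y : A, x * y = y * x := by
  obtain ⟨B, hB⟩ := hA
  let Z := Multiplicative (ZMod 2)
  have hZ : Nat.card Z = 2 := by
    show Nat.card (ZMod 2) = 2
    rw [Nat.card_eq_fintype_card, ZMod.card]
  -- `B` is not trivial
  have hB1 : Nontrivial B := by
    rw [Subgroup.nontrivial_iff_ne_bot]
    rintro rfl
    apply hne
    have h1 := Monoid.Coprod.range_lift A.subtype (⊥ : Subgroup (FreeGroup (Fin 2))).subtype
    rw [Subgroup.range_subtype, Subgroup.range_subtype, sup_bot_eq] at h1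
    rw [← h1]
    exact MonoidHom.range_eq_top.2 hB.2
  let e : Monoid.Coprod A B ≃* FreeGroup (Fin 2) := MulEquiv.ofBijective _ hB
  have hcount : Nat.card (A →* Z) * Nat.card (B →* Z) = 4 := by
    rw [← Nat.card_prod]
    have h1 : Nat.card ((A →* Z) × (B →* Z)) = Nat.card (FreeGroup (Fin 2) →* Z) :=
      Nat.card_congr (Monoid.Coprod.liftEquiv.trans (MulEquiv.monoidHomCongrLeftEquiv e))
    rw [h1, card_homs (MulEquiv.refl _), Nat.card_fun, hZ]
    simp
  let ιA := IsFreeGroup.Generators A
  let ιB := IsFreeGroup.Generators B
  let eA : A ≃* FreeGroup ιA := IsFreeGroup.toFreeGroup A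
  let eB : B ≃* FreeGroup ιB := IsFreeGroup.toFreeGroup B
  have hA4 : Nat.card (A →* Z) = Nat.card (ιA → Z) := card_homs eA
  have hB4 : Nat.card (B →* Z) = Nat.card (ιB → Z) := card_homs eB
  rw [hA4, hB4] at hcount
  have hfA : Finite (ιA → Z) := Nat.finite_of_card_ne_zero (by
    intro h; rw [h, zero_mul] at hcount; omega)
  have hfB : Finite (ιB → Z) := Nat.finite_of_card_ne_zero (by
    intro h; rw [h, mul_zero] at hcount; omega)
  have hZn : Nontrivial Z := inferInstanceAs (Nontrivial (ZMod 2))
  have hιA : Finite ιA := by
    by_contra h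
    have := not_finite_iff_infinite.1 h
    exact not_finite (ιA → Z)
  have hιB : Finite ιB := by
    by_contra h
    have := not_finite_iff_infinite.1 h
    exact not_finite (ιB → Z)
  rw [Nat.card_fun, Nat.card_fun, hZ, ← pow_add] at hcount
  have hsum : Nat.card ιA + Nat.card ιB = 2 := by
    have : (2 : ℕ) ^ (Nat.card ιA + Nat.card ιB) = 2 ^ 2 := by rw [hcount]; norm_num
    exact Nat.pow_right_injective le_rfl this
  have hBpos : Nat.card ιB ≠ 0 := by
    intro h
    rw [Nat.card_eq_zero] at h
    rcases h with h | h
    · have : Subsingleton B := eB.toEquiv.subsingleton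
      exact not_subsingleton B this
    · exact h.not_finite hιB
  have hsub : Subsingleton ιA := by
    rw [← Finite.card_le_one_iff_subsingleton]
    omega
  intro x y
  apply eA.injective
  rw [map_mul, map_mul]
  have hcomm : ∀ u v : FreeGroup ιA, u * v = v * u := by
    intro u v
    have h2 : ∀ i : ιA, ∀ w : FreeGroup ιA, FreeGroup.of i * w = w * FreeGroup.of i := by
      intro i w
      induction w using FreeGroup.induction_on with
      | C1 => rw [mul_one, one_mul]
      | of j => rw [Subsingleton.elim i j]
      | inv_of j _ => rw [Subsingleton.elim i j, mul_inv_cancel, inv_mul_cancel]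
      | mul a b ha hb => rw [← mul_assoc, ha, mul_assoc, hb, mul_assoc]
    induction u using FreeGroup.induction_on with
    | C1 => rw [mul_one, one_mul]
    | of j => exact h2 j v
    | inv_of j _ =>
      rw [inv_mul_eq_iff_eq_mul, ← mul_assoc, h2 j v, mul_assoc, mul_inv_cancel, mul_one]
    | mul a b ha hb => rw [mul_assoc, hb, ← mul_assoc, ha, mul_assoc]
  exact hcomm _ _

/-- the commutator `x y x⁻¹ y⁻¹` of the generators -/
def comm2 : FreeGroup (Fin 2) :=
  FreeGroup.of 0 * FreeGroup.of 1 * (FreeGroup.of 0)⁻¹ * (FreeGroup.of 1)⁻¹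

lemma comm2_ne : comm2 ≠ 1 := by
  intro h
  have h1 := congrArg (FreeGroup.lift (fun i : Fin 2 =>
    if i = 0 then Equiv.swap (0 : Fin 3) 1 else Equiv.swap 1 2)) h
  unfold comm2 at h1
  simp only [map_mul, map_inv, FreeGroup.lift_apply_of, map_one] at h1
  revert h1
  decide

lemma not_mem_factor {A : Subgroup (FreeGroup (Fin 2))} (hA : IsFreeFactor A)
    (hg : comm2 ∈ A) : A = ⊤ := by
  by_contra hne
  have hc := comm_of_factor hA hne
  obtain ⟨B, hB⟩ := hA
  let e : Monoid.Coprod A B ≃* FreeGroup (Fin 2) := MulEquiv.ofBijective _ hB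
  let r : FreeGroup (Fin 2) →* A :=
    (Monoid.Coprod.lift (MonoidHom.id A) (1 : B →* A)).comp e.symm.toMonoidHom
  have hr : ∀ a : A, r a = a := by
    intro a
    have h1 : e (Monoid.Coprod.inl a) = a :=
      Monoid.Coprod.lift_apply_inl A.subtype B.subtype a
    show Monoid.Coprod.lift (MonoidHom.id A) (1 : B →* A) (e.symm a) = a
    rw [← h1, e.symm_apply_apply, Monoid.Coprod.lift_apply_inl]
    rfl
  have h2 : r comm2 = 1 := by
    unfold comm2
    rw [map_mul, map_mul, map_mul, map_inv, map_inv, hc (r (FreeGroup.of 0)),
      mul_inv_cancel_right, mul_inv_cancel]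
  have h3 : r comm2 = ⟨comm2, hg⟩ := hr ⟨comm2, hg⟩
  rw [h2] at h3
  exact comm2_ne (congrArg Subtype.val h3).symm

/-- **Theorem.** Every element `g` of every group `F` is in a point stabilizer of a projective pile
`(F̂, T)` with `|T| > 1` (`F̂` the profinite completion); and there are a finitely generated free group
`F`, an element `g ≠ 1` of `F`, a projective pile `(F̂, T)` with `|T| > 1` and a point of `T` whose
stabilizer contains `g`, such that no free factor of `F` other than `F` contains `g`. -/
theorem result :
    (∀ (F : Type) [Group F] (g : F), InStabilizer F g) ∧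
    ∃ (F : Type) (_ : Group F) (g : F), IsFreeGroup F ∧ Group.FG F ∧ g ≠ 1 ∧ InStabilizer F g ∧
      ∀ A : Subgroup F, IsFreeFactor A → g ∈ A → A = ⊤ :=
  ⟨fun F _ g => inStabilizer F g, FreeGroup (Fin 2), inferInstance, comm2, inferInstance,
    inferInstance, comm2_ne, inStabilizer _ _, fun _ hA hg => not_mem_factor hA hg⟩

end Pool.Agent.Results.MP_f46d86_al.FixedPointPiles
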